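import Pool.Agent.Helper62.LIL.NBG
import Pool.Agent.Helper62.LIL.UD
import Pool.Agent.Helper62.LIL.LW2
import Pool.Agent.Helper1.LIL.MOMof
import Pool.Agent.Helper51.LIL.SP
import Pool.Agent.Helper51.LIL.C1
import Pool.Agent.Helper9.LIL.U0F
import Pool.Agent.Helper73.LIL.U12
import Pool.Agent.Helper56.LIL.UP
import Pool.Agent.Helper55.LIL.GEN
import Pool.Agent.Helper55.LIL.LT
import Pool.Agent.Helper60.LIL.LT2
import Pool.Agent.Helper30.LIL.LA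

/-! Assembly of the blocks of the LIL project (MP_fb29e9_nt). -/

open MeasureTheory Filter Set
open scoped Real Topology

namespace Pool.Agent.Helper22.LIL

open Pool.Agent.Helper22.GC Pool.Agent.Helper53.OM

noncomputable section

theorem ASM_moment {Q : Finset ℕ} {N m : ℕ} (hQ : Q ⊆ sqf N) (hm : 1 ≤ m) {a b lam μ : ℝ}
    (hab : a ≤ b) (hlam : 0 < lam) (hμ : 0 < μ) :
    ∫ α in a..b, SQ Q N (α * lam) ^ (2 * m) ≤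
      (b - a) * ((2 * m).factorial / μ ^ (2 * m) * Real.exp (μ ^ 2 * ∑ q ∈ Q, bq N q ^ 2))
      + (∑ q ∈ Q, bq N q) ^ (2 * m) * (2 * m * √N + 1) ^ (2 ^ (2 * m)) / lam :=
  moment_of (fun hS c hc B hB h => norm_bound hS c hc hB h) hQ hm hab hlam hμ

theorem ASM_sum_big : ∃ C : ℝ, 0 < C ∧ ∀ (V : ℝ) (Q : Finset ℕ), 0 < V →
    (∀ q ∈ Q, 0 < q ∧ Squarefree q ∧ V ^ (-(3 / 4) : ℝ) ≤ rho q) →
    ∑ q ∈ Q, rho q ≤ C * V ^ (1 / 4 : ℝ) * gV V :=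
  sum_big_of count_upper

theorem ASM_sum_small : ∃ C : ℝ, 0 < C ∧ ∀ (V : ℝ) (Q : Finset ℕ), 0 < V →
    (∀ q ∈ Q, 0 < q ∧ Squarefree q ∧ rho q < V ^ (-(3 / 4) : ℝ)) →
    ∑ q ∈ Q, rho q ^ 2 ≤ C * V ^ (-(1 / 2) : ℝ) * gV V :=
  sum_small_of count_upper

theorem ASM_TK_sq : ∃ C : ℝ, 0 < C ∧ ∀ (N : ℕ) (a b lam : ℝ), a ≤ b → 0 < lam →
    ∫ α in a..b, TK N (α * lam) ^ 2 ≤ C * (b - a) + C * ((N : ℝ) + 1) ^ 8 / lam :=
  TK_sq_of ASM_moment TK_eq_SQ bq_le ASM_sum_big ASM_sum_small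

theorem ASM_upper_ae : ∃ C : ℝ, 0 < C ∧ ∀ (β : ℝ) (lam : ℕ → ℝ), 1 < β → Lac β lam →
    ∀ a b : ℝ, 0 < a → a < b →
    ∀ᵐ α ∂(volume.restrict (Icc a b)), ∀ᶠ k : ℕ in atTop,
      |TK (Nk k) (α * lam k)| ≤ C * Phi k :=
  upper_ae_of ASM_moment TK_eq_SQ bq_le ASM_sum_big ASM_sum_small

end

end Pool.Agent.Helper22.LIL
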