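import Pool.Agent.Helper22.LIL.FIN
import Pool.Agent.Helper6.LIL.LOF

/-! The law of the iterated logarithm (MP_fb29e9_nt), without hypotheses. -/

open MeasureTheory Filter Set
open scoped Real Topology

namespace Pool.Agent.Helper22.LIL

open Pool.Agent.Helper22.GC Pool.Agent.Helper53.OM

noncomputable section

theorem lil_main : ∃ c C : ℝ, 0 < c ∧ 0 < C ∧ ∀ (β : ℝ) (lam : ℕ → ℝ), 1 < β → Lac β lam →
    ∀ σ : ℝ, (σ = 1 ∨ σ = -1) → ∀ᵐ α ∂(volume.restrict (Ioi (0 : ℝ))),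
      (∀ᶠ k : ℕ in atTop, σ * Pe (α * lam k) ≤ C * √(α * lam k) * Phi k) ∧
      (∃ᶠ k : ℕ in atTop, c * √(α * lam k) * Phi k ≤ σ * Pe (α * lam k)) :=
  lil_main_of low_measure

end

end Pool.Agent.Helper22.LIL
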