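import Pool.Agent.Helper22.GC.Bridge
import Pool.Agent.Helper22.GC.Omega
import Pool.Agent.Helper53.OM.Defs

/-!
# A law of the iterated logarithm for the circle problem on lacunary sequences: definitions
-/

open MeasureTheory Filter
open scoped Real Topology

namespace Pool.Agent.Helper22.LIL

open Pool.Agent.Helper22.GC Pool.Agent.Helper53.OM

noncomputable section

open Classical in
/-- the squarefree integers in `[1, N]` -/
def sqf (N : ℕ) : Finset ℕ := (Finset.Icc 1 N).filter (fun q => Squarefree q)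

/-- the `j ≥ 1` with `q j² ≤ N` -/
def js (N q : ℕ) : Finset ℕ := (Finset.Icc 1 N).filter (fun j => q * j ^ 2 ≤ N)

/-- the part of the Hardy sum `TK N` with squarefree part in `Q` -/
def SQ (Q : Finset ℕ) (N : ℕ) (x : ℝ) : ℝ :=
  ∑ q ∈ Q, ∑ j ∈ js N q, rho (q * j ^ 2) * (1 / π * Real.cos (2 * π * (x * (j * √q)) - 3 * π / 4))

/-- the size of the block of `q` -/
def bq (N q : ℕ) : ℝ := ∑ j ∈ js N q, rho (q * j ^ 2)

/-- the length of the Hardy sum used for the `k`-th point -/
def Nk (k : ℕ) : ℕ := 2 ^ (10 * (Nat.log 2 k + 1))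

/-- the slowly varying factor -/
def gV (V : ℝ) : ℝ := (1 + Real.log (1 + V)) ^ (kap - 1)

/-- the size in the law of the iterated logarithm -/
def Phi (k : ℕ) : ℝ :=
  (Real.log k) ^ (1 / 4 : ℝ) * (Real.log (Real.log k)) ^ ((3 / 4 : ℝ) * (kap - 1))

/-- lacunary sequences -/
def Lac (β : ℝ) (lam : ℕ → ℝ) : Prop := (∀ k, 0 < lam k) ∧ ∀ k, β * lam k ≤ lam (k + 1)

/-- the sign attached to a Boolean -/
def sg (s : Bool) : ℤ := if s then 1 else -1

/-- all coordinate sums vanish -/
def Rel {n : ℕ} (t : Fin n → ℕ × ℕ) (s : Fin n → Bool) : Prop :=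
  ∀ q : ℕ, ∑ i, (if (t i).1 = q then sg (s i) * ((t i).2 : ℤ) else 0) = 0

open Classical in
/-- the number of sign vectors for which all coordinate sums vanish -/
def relCount {n : ℕ} (t : Fin n → ℕ × ℕ) : ℕ :=
  (Finset.univ.filter (fun s : Fin n → Bool => Rel t s)).card

open Classical in
/-- the integers `n ≤ x` that are products of `k` distinct primes `1 mod 4` -/
def Wk (k : ℕ) (x : ℝ) : Finset ℕ :=
  (Finset.Icc 1 ⌊x⌋₊).filter (fun n => Squarefree n ∧ (∀ p, p.Prime → p ∣ n → p % 4 = 1) ∧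
    n.primeFactors.card = k)

end

end Pool.Agent.Helper22.LIL
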