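import Pool.Agent.Helper22.LIL.ASM

/-! Block LIL-FIN (helper22): the law of the iterated logarithm. -/

open MeasureTheory Filter Set
open scoped Real Topology

namespace Pool.Agent.Helper22.LIL

open Pool.Agent.Helper22.GC Pool.Agent.Helper53.OM

noncomputable section

lemma FIN_one_le_kap : 1 ≤ kap := by
  unfold kap
  exact Real.one_le_rpow (by norm_num) (by norm_num)

lemma FIN_tendsto_Phi : Tendsto Phi atTop atTop := by
  have t1 : Tendsto (fun k : ℕ => Real.log k) atTop atTop :=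
    Real.tendsto_log_atTop.comp tendsto_natCast_atTop_atTop
  have t2 : Tendsto (fun k : ℕ => Real.log (Real.log k)) atTop atTop :=
    Real.tendsto_log_atTop.comp t1
  have t3 : Tendsto (fun k : ℕ => (Real.log k) ^ (1 / 4 : ℝ)) atTop atTop :=
    (tendsto_rpow_atTop (by norm_num)).comp t1
  refine tendsto_atTop_mono' _ ?_ t3
  filter_upwards [t1.eventually_ge_atTop 0, t2.eventually_ge_atTop 1] with k h1 h2
  unfold Phi
  have h3 : 1 ≤ (Real.log (Real.log k)) ^ ((3 / 4 : ℝ) * (kap - 1)) :=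
    Real.one_le_rpow h2 (by have := FIN_one_le_kap; nlinarith)
  exact le_mul_of_one_le_right (by positivity) h3

lemma FIN_pieces {p : ℝ → Prop} (h : ∀ a b : ℝ, 0 < a → a < b → b ≤ 3 / 2 * a →
    ∀ᵐ α ∂(volume.restrict (Icc a b)), p α) : ∀ᵐ α ∂(volume.restrict (Ioi (0 : ℝ))), p α := by
  have h1 : ∀ n : ℤ, ∀ᵐ α ∂(volume.restrict (Icc ((3 / 2 : ℝ) ^ n) ((3 / 2 : ℝ) ^ (n + 1)))), p α := by
    intro n
    have h2 : (0 : ℝ) < (3 / 2 : ℝ) ^ n := by positivity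
    have h3 : (3 / 2 : ℝ) ^ (n + 1) = 3 / 2 * (3 / 2 : ℝ) ^ n := by
      rw [zpow_add₀ (by norm_num), zpow_one, mul_comm]
    refine h _ _ h2 ?_ (le_of_eq h3)
    rw [h3]
    linarith
  have h2 : Ioi (0 : ℝ) ⊆ ⋃ n : ℤ, Icc ((3 / 2 : ℝ) ^ n) ((3 / 2 : ℝ) ^ (n + 1)) := by
    intro x hx
    obtain ⟨n, hn⟩ := exists_mem_Ico_zpow hx (by norm_num : (1 : ℝ) < 3 / 2)
    exact mem_iUnion.2 ⟨n, hn.1, hn.2.le⟩
  have h3 : ∀ᵐ α ∂(volume.restrict (⋃ n : ℤ, Icc ((3 / 2 : ℝ) ^ n) ((3 / 2 : ℝ) ^ (n + 1)))), p α := by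
    rw [ae_restrict_iUnion_iff]
    exact h1
  exact ae_mono (Measure.restrict_mono h2 le_rfl) h3

theorem lil_main_of (hlo : ∃ c : ℝ, 0 < c ∧ ∀ (β : ℝ) (lam : ℕ → ℝ), 1 < β → Lac β lam →
    ∀ σ : ℝ, (σ = 1 ∨ σ = -1) → ∀ a b : ℝ, 0 < a → a < b →
    Tendsto (fun j : ℕ => volume {α ∈ Icc a b | ∀ k : ℕ, 4 ^ j ≤ k → k < 2 * 4 ^ j →
      σ * TK (Nk k) (α * lam k) < c * Phi k}) atTop (𝓝 0)) :
    ∃ c C : ℝ, 0 < c ∧ 0 < C ∧ ∀ (β : ℝ) (lam : ℕ → ℝ), 1 < β → Lac β lam →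
    ∀ σ : ℝ, (σ = 1 ∨ σ = -1) → ∀ᵐ α ∂(volume.restrict (Ioi (0 : ℝ))),
      (∀ᶠ k : ℕ in atTop, σ * Pe (α * lam k) ≤ C * √(α * lam k) * Phi k) ∧
      (∃ᶠ k : ℕ in atTop, c * √(α * lam k) * Phi k ≤ σ * Pe (α * lam k)) := by
  obtain ⟨c₀, hc₀, hlow⟩ := lower_ae_of hlo
  obtain ⟨C₀, hC₀, hup⟩ := ASM_upper_ae
  refine ⟨c₀ / 2, C₀ + 1, by positivity, by positivity, fun β lam hβ hl σ hσ => ?_⟩
  refine FIN_pieces fun a b ha hab hb => ?_
  have hIcc : ∀ᵐ α ∂(volume.restrict (Icc a b)), α ∈ Icc a b := ae_restrict_mem measurableSet_Icc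
  filter_upwards [hIcc, hlow β lam hβ hl σ hσ a b ha hab, hup β lam hβ hl a b ha hab,
    err_ae hβ hl ha hab hb] with α hα h1 h2 h3
  have hα0 : 0 < α := lt_of_lt_of_le ha hα.1
  have hσ1 : |σ| = 1 := by rcases hσ with h | h <;> simp [h]
  set D : ℕ → ℝ := fun k => Pe (α * lam k) / √(α * lam k) - TK (Nk k) (α * lam k) with hD
  have hs : ∀ k, 0 < √(α * lam k) := fun k => Real.sqrt_pos.2 (mul_pos hα0 (hl.1 k))
  have hP : ∀ k, σ * Pe (α * lam k) = √(α * lam k) * (σ * TK (Nk k) (α * lam k) + σ * D k) := by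
    intro k
    have := (hs k).ne'
    simp only [hD]
    field_simp
    ring
  have hD1 : ∀ᶠ k in atTop, |σ * D k| ≤ 1 := by
    have h4 : Tendsto (fun k => |D k|) atTop (𝓝 |(0 : ℝ)|) := h3.abs
    rw [abs_zero] at h4
    filter_upwards [h4.eventually_lt_const (zero_lt_one)] with k hk
    rw [abs_mul, hσ1, one_mul]
    exact hk.le
  have hΦ1 : ∀ᶠ k in atTop, 1 ≤ Phi k := FIN_tendsto_Phi.eventually_ge_atTop 1
  have hΦ2 : ∀ᶠ k in atTop, 2 / c₀ ≤ Phi k := FIN_tendsto_Phi.eventually_ge_atTop _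
  constructor
  · filter_upwards [h2, hD1, hΦ1] with k h4 h5 h6
    rw [hP k]
    have h7 : σ * TK (Nk k) (α * lam k) ≤ |TK (Nk k) (α * lam k)| := by
      calc σ * TK (Nk k) (α * lam k) ≤ |σ * TK (Nk k) (α * lam k)| := le_abs_self _
        _ = |TK (Nk k) (α * lam k)| := by rw [abs_mul, hσ1, one_mul]
    have h8 := le_of_abs_le h5
    have h9 : σ * TK (Nk k) (α * lam k) + σ * D k ≤ (C₀ + 1) * Phi k := by linarith
    calc √(α * lam k) * (σ * TK (Nk k) (α * lam k) + σ * D k)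
        ≤ √(α * lam k) * ((C₀ + 1) * Phi k) := mul_le_mul_of_nonneg_left h9 (hs k).le
      _ = _ := by ring
  · refine (h1.and_eventually (hD1.and hΦ2)).mono fun k hk => ?_
    obtain ⟨h4, h5, h6⟩ := hk
    rw [hP k]
    have h8 := (abs_le.1 h5).1
    rw [div_le_iff₀ hc₀] at h6
    have h9 : c₀ / 2 * Phi k ≤ σ * TK (Nk k) (α * lam k) + σ * D k := by linarith
    calc c₀ / 2 * √(α * lam k) * Phi k = √(α * lam k) * (c₀ / 2 * Phi k) := by ring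
      _ ≤ _ := mul_le_mul_of_nonneg_left h9 (hs k).le

end

end Pool.Agent.Helper22.LIL
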