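import Pool.Agent.Helper22.LIL.Defs
import Pool.Agent.Helper22.GC.Main

/-! Block LIL-UA (helper22). -/

open MeasureTheory Filter Set
open scoped Real Topology

namespace Pool.Agent.Helper22.LIL

open Pool.Agent.Helper22.GC Pool.Agent.Helper53.OM

noncomputable section

/-- The mean-square Hardy formula, uniformly in the shift. -/
theorem approx_unif_aux (α : ℝ) {ε : ℝ} (hα : 0 < α) (hε : 0 < ε) (hε' : ε < 1 / 8) :
    ∃ (C : ℝ) (M₀ : ℕ), 0 < C ∧ ∀ β : ℝ, |β| ≤ 1 → ∀ (M H K : ℕ), M₀ ≤ M → 1 ≤ H → H ≤ M → 1 ≤ K →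
      (K : ℝ) ≤ ((H : ℝ) * M) ^ (2 / 3 : ℝ) →
      (∀ n : ℕ, 2 ≤ α * (M + 1) + β + α * n) ∧
      N2 H (fun n => ((Pe (α * (M + 1) + β + α * n) / √(α * (M + 1) + β + α * n)
        - TK K (α * (M + 1) + β + α * n) : ℝ) : ℂ))
        ≤ C * (√H * (K : ℝ) ^ (-(1 / 8) + ε) + ((H : ℝ) * M) ^ (1 / 6 + ε)) := by
  obtain ⟨C1, hC1, hQ⟩ := Q_bound hα hε hε'
  obtain ⟨A, hA, hTK⟩ := abs_TK_le hε hε'
  obtain ⟨M₀, hM₀⟩ := exists_nat_ge ((2 * 1 + 6) / α)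
  refine ⟨4 * (C1 * (2 + 2 / α)) + (2 * A / α + 13 * √(3 * α + 1)), M₀ + 1, by positivity, ?_⟩
  intro β hβ M H K hM hH hHM hK hKM
  have hMr : (1 : ℝ) ≤ M := by exact_mod_cast (by omega : 1 ≤ M)
  have hHr : (1 : ℝ) ≤ H := by exact_mod_cast hH
  have hHMr : (H : ℝ) ≤ M := by exact_mod_cast hHM
  have hM0r : (M₀ : ℝ) ≤ M := by exact_mod_cast (by omega : M₀ ≤ M)
  have hM2 : 2 * 1 + 6 ≤ α * M := by
    have : (2 * 1 + 6) / α ≤ M := hM₀.trans hM0r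
    rw [div_le_iff₀ hα] at this
    linarith
  have hlow : ∀ n : ℕ, α * M / 2 + 3 ≤ α * (M + 1) + β + α * n := by
    intro n
    have : 0 ≤ α * n := by positivity
    have := neg_abs_le β
    linarith
  have hhigh : ∀ n : ℕ, n < H → α * (M + 1) + β + α * n ≤ (3 * α + 1) * M := by
    intro n hn
    have h1 : (n : ℝ) + 1 ≤ M := by
      have : n + 1 ≤ M := by omega
      exact_mod_cast this
    have h2 : α * (n + 1) ≤ α * M := mul_le_mul_of_nonneg_left h1 hα.le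
    have h3 : |β| ≤ M := hβ.trans hMr
    have h4 := le_abs_self β
    have h5 : 0 ≤ α * M := by positivity
    linarith
  obtain ⟨s, hs⟩ : ∃ s : ℝ, s = α * (M + 1) + β := ⟨_, rfl⟩
  rw [← hs] at hlow hhigh ⊢
  have hαM : 0 < α * (M : ℝ) := by positivity
  have hR2 : ∀ n : ℕ, 2 ≤ s + α * n := fun n => by linarith [hlow n]
  refine ⟨hR2, ?_⟩
  obtain ⟨y, hy⟩ : ∃ y : ℝ, y = ((H : ℝ) * M) ^ (1 / 6 : ℝ) := ⟨_, rfl⟩
  obtain ⟨hy1, hy4, hy3, hyM, hsH⟩ := param_facts hHr hHMr hy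
  have hP1 : 1 ≤ (H : ℝ) * M := one_le_mul_of_one_le_of_one_le hHr hMr
  have hδ0 : 0 < 1 / (2 * y ^ 2) := by positivity
  have hδ1 : 1 / (2 * y ^ 2) ≤ 1 / 2 := by
    apply one_div_le_one_div_of_le (by norm_num)
    nlinarith
  have hδ2 : 1 / (1 / (2 * y ^ 2)) ^ 2 = 4 * y ^ 4 := by field_simp; norm_num
  have hKy : (K : ℝ) ≤ y ^ 4 := by rw [← hy4]; exact hKM
  have hy40 : 0 < y ^ 4 := by positivity
  have hKδ : (K : ℝ) ≤ 1 / (1 / (2 * y ^ 2)) ^ 2 := by rw [hδ2]; linarith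
  have hr0 : 0 < α * (M : ℝ) / 2 := by positivity
  have hQp := hQ H K (1 / (2 * y ^ 2)) s 1 (α * M / 2) hδ0 hδ1 (by norm_num) hK hKδ hr0
    (fun n _ => by linarith [hlow n])
  have hQm := hQ H K (1 / (2 * y ^ 2)) s (-1) (α * M / 2) hδ0 hδ1 (by norm_num) hK hKδ hr0
    (fun n _ => by linarith [hlow n])
  have hyε : y ≤ ((H : ℝ) * M) ^ (1 / 6 + ε) := by
    rw [hy]; exact Real.rpow_le_rpow_of_exponent_le hP1 (by linarith)
  have hB2 : (1 / (1 / (2 * y ^ 2)) ^ 2) ^ (1 / 4 + ε) ≤ 2 * ((H : ℝ) * M) ^ (1 / 6 + ε) := by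
    rw [hδ2, ← hy4]; exact bound_power hP1 hε hε'
  have hB3 : √(H : ℝ) / (α * M / 2) ≤ 2 / α * ((H : ℝ) * M) ^ (1 / 6 + ε) := by
    have h1 : √(H : ℝ) / (α * M / 2) ≤ 2 / α := by
      rw [div_le_div_iff₀ (by positivity) hα]
      have := mul_le_mul_of_nonneg_right hsH hα.le
      linarith
    have h2 : 1 ≤ ((H : ℝ) * M) ^ (1 / 6 + ε) := hy1.trans hyε
    have h3 : 2 / α * 1 ≤ 2 / α * ((H : ℝ) * M) ^ (1 / 6 + ε) :=
      mul_le_mul_of_nonneg_left h2 (by positivity)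
    linarith
  obtain ⟨P, hPdef⟩ : ∃ P : ℝ, P = ((H : ℝ) * M) ^ (1 / 6 + ε) := ⟨_, rfl⟩
  obtain ⟨Z, hZdef⟩ : ∃ Z : ℝ, Z = √H * (K : ℝ) ^ (-(1 / 8) + ε) := ⟨_, rfl⟩
  have hZ0 : 0 ≤ Z := by rw [hZdef]; positivity
  rw [← hPdef] at hyε hB2 hB3 ⊢
  rw [← hZdef] at hQp hQm ⊢
  have hBQ : C1 * (Z + (1 / (1 / (2 * y ^ 2)) ^ 2) ^ (1 / 4 + ε) + √H / (α * M / 2))
      ≤ C1 * (2 + 2 / α) * (Z + P) := by
    rw [mul_assoc]
    refine mul_le_mul_of_nonneg_left ?_ hC1.le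
    have h2 : 0 ≤ 2 / α * Z := by positivity
    linarith
  have hsm : ∀ n : ℕ, n < H → _ := fun n hn =>
    small_bound (H := H) hA hα (by positivity : 0 < 3 * α + 1) hy1 (by linarith : (0 : ℝ) < M)
      (R := s + α * n) (by linarith [hlow n]) (hhigh n hn) (hTK K (s + α * n)) hKy hy3 hyM
  have key := N2_sandwich (H := H) (R := fun n => s + α * n) (T := fun n => TK K (s + α * n))
    (δ := 1 / (2 * y ^ 2)) (fun n _ => hR2 n) hδ0 hδ1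
    (Bs := 1 / y ^ 2 / (α * M / 2) * (A * y ^ 4) + 13 / y ^ 2 * (√(3 * α + 1) * √M))
    (by positivity) (hQp.trans hBQ) (hQm.trans hBQ) (fun n hn => (hsm n hn).2)
  refine key.trans ?_
  have h1 := (hsm 0 (by omega)).1
  have h2 : (2 * A / α + 13 * √(3 * α + 1)) * y ≤ (2 * A / α + 13 * √(3 * α + 1)) * (Z + P) :=
    mul_le_mul_of_nonneg_left (by linarith) (by positivity)
  linarith



/-- UA: `GC.approx_main` with `α = 1`, uniformly in the shift. -/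
theorem approx_unif {ε : ℝ} (hε : 0 < ε) (hε' : ε < 1 / 8) :
    ∃ (C : ℝ) (M₀ : ℕ), 0 < C ∧ ∀ β : ℝ, |β| ≤ 1 → ∀ (M H K : ℕ), M₀ ≤ M → 1 ≤ H → H ≤ M → 1 ≤ K →
      (K : ℝ) ≤ ((H : ℝ) * M) ^ (2 / 3 : ℝ) →
      (∀ n : ℕ, 2 ≤ (M : ℝ) + 1 + β + n) ∧
      N2 H (fun n => ((Pe ((M : ℝ) + 1 + β + n) / √((M : ℝ) + 1 + β + n)
        - TK K ((M : ℝ) + 1 + β + n) : ℝ) : ℂ))
        ≤ C * (√H * (K : ℝ) ^ (-(1 / 8) + ε) + ((H : ℝ) * M) ^ (1 / 6 + ε)) := by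
  obtain ⟨C, M₀, hC, h⟩ := approx_unif_aux 1 one_pos hε hε'
  refine ⟨C, M₀, hC, fun β hβ M H K h1 h2 h3 h4 h5 => ?_⟩
  have h6 := h β hβ M H K h1 h2 h3 h4 h5
  simpa only [one_mul] using h6

end

end Pool.Agent.Helper22.LIL
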